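import Mathlib
import Pool.Agent.Lib.MP_50ef00_gt.Pos

/-!
# MP_50ef00_gt: P5, the classes of edge paths form a cocycle
-/

namespace Pool.Agent.Lib.MP_50ef00_gt.H63

open scoped unitInterval
open CategoryTheory H65

/-- a point of the realization supported in `s` has coordinate sum one over `s` -/
theorem sum_eq {K : Finset (Finset ℕ)} (x : Rz K) {s : Finset ℕ} (h : ∀ i, i ∉ s → x.1 i = 0) :
    ∑ i ∈ s, x.1 i = 1 := by
  obtain ⟨x, hx0, s', hs', h1, h2⟩ := x
  have e1 : ∑ i ∈ s, x i = ∑ i ∈ s ∪ s', x i :=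
    Finset.sum_subset Finset.subset_union_left (fun i _ hi => h i hi)
  have e2 : ∑ i ∈ s', x i = ∑ i ∈ s ∪ s', x i :=
    Finset.sum_subset Finset.subset_union_right (fun i _ hi => h1 i hi)
  simp only
  rw [e1, ← e2, h2]

/-- two paths in the same closed simplex are homotopic -/
theorem homotopic_of_supp {K : Finset (Finset ℕ)} {s : Finset ℕ} (hs : s ∈ K) {x y : Rz K}
    (γ γ' : Path x y) (h : ∀ r i, i ∉ s → (γ r).1 i = 0)
    (h' : ∀ r i, i ∉ s → (γ' r).1 i = 0) : γ.Homotopic γ' := by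
  refine ⟨{ toFun := fun p => ⟨fun i => (1 - (p.1 : ℝ)) * (γ p.2).1 i
              + (p.1 : ℝ) * (γ' p.2).1 i, ?_⟩
            continuous_toFun := ?_
            map_zero_left := ?_
            map_one_left := ?_
            prop' := ?_ }⟩
  · refine ⟨fun i => ?_, s, hs, fun i hi => ?_, ?_⟩
    · have h0 := p.1.2.1
      have h1 : (0 : ℝ) ≤ 1 - p.1 := by linarith [p.1.2.2]
      have h2 := (γ p.2).2.1 i
      have h3 := (γ' p.2).2.1 i
      positivity
    · simp [h p.2 i hi, h' p.2 i hi]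
    · rw [Finset.sum_add_distrib, ← Finset.mul_sum, ← Finset.mul_sum, sum_eq _ (h p.2),
        sum_eq _ (h' p.2)]
      ring
  · apply Continuous.subtype_mk
    apply continuous_pi
    intro i
    have c1 : Continuous fun p : I × I => (γ p.2).1 i :=
      (continuous_apply i).comp (continuous_subtype_val.comp (γ.continuous.comp continuous_snd))
    have c2 : Continuous fun p : I × I => (γ' p.2).1 i :=
      (continuous_apply i).comp (continuous_subtype_val.comp (γ'.continuous.comp continuous_snd))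
    have c3 : Continuous fun p : I × I => (p.1 : ℝ) := continuous_subtype_val.comp continuous_fst
    exact ((continuous_const.sub c3).mul c1).add (c3.mul c2)
  · intro r
    apply Subtype.ext
    funext i
    simp
  · intro r
    apply Subtype.ext
    funext i
    simp
  · intro t r hr
    apply Subtype.ext
    funext i
    rcases hr with hr | hr
    · rw [hr]
      simp
      ring
    · rw [Set.mem_singleton_iff] at hr
      rw [hr]
      simp
      ring

theorem seg_supp {K : Finset (Finset ℕ)} {u v : ℕ} (hu : {u} ∈ K) (hv : {v} ∈ K)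
    (h : ({u, v} : Finset ℕ) ∈ K) (r : I) (i : ℕ) (hi : i ∉ ({u, v} : Finset ℕ)) :
    (seg K u v hu hv h r).1 i = 0 := by
  simp only [Finset.mem_insert, Finset.mem_singleton, not_or] at hi
  simp [seg, hi.1, hi.2]

theorem trans_supp {K : Finset (Finset ℕ)} {s : Finset ℕ} {x y z : Rz K} (γ : Path x y)
    (γ' : Path y z) (h : ∀ r i, i ∉ s → (γ r).1 i = 0) (h' : ∀ r i, i ∉ s → (γ' r).1 i = 0)
    (r : I) (i : ℕ) (hi : i ∉ s) : (γ.trans γ' r).1 i = 0 := by
  rw [Path.trans_apply]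
  split_ifs with hr
  · exact h _ i hi
  · exact h' _ i hi

/-- the two sides of a triangle are homotopic to the third side -/
theorem seg_trans {K : Finset (Finset ℕ)} {u v w : ℕ} (hu : {u} ∈ K) (hv : {v} ∈ K)
    (hw : {w} ∈ K) (huv : ({u, v} : Finset ℕ) ∈ K) (hvw : ({v, w} : Finset ℕ) ∈ K)
    (huw : ({u, w} : Finset ℕ) ∈ K) (h : ({u, v, w} : Finset ℕ) ∈ K) :
    ((seg K u v hu hv huv).trans (seg K v w hv hw hvw)).Homotopic (seg K u w hu hw huw) := by
  refine homotopic_of_supp h _ _ ?_ ?_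
  · apply trans_supp
    · intro r i hi
      apply seg_supp
      simp only [Finset.mem_insert, Finset.mem_singleton, not_or] at hi ⊢
      exact ⟨hi.1, hi.2.1⟩
    · intro r i hi
      apply seg_supp
      simp only [Finset.mem_insert, Finset.mem_singleton, not_or] at hi ⊢
      exact ⟨hi.2.1, hi.2.2⟩
  · intro r i hi
    apply seg_supp
    simp only [Finset.mem_insert, Finset.mem_singleton, not_or] at hi ⊢
    exact ⟨hi.1, hi.2.2⟩

section

variable (K : Finset (Finset ℕ)) (h0 : {0} ∈ K)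

/-- the vertex `v` lies in `K`, in the component of the base vertex -/
def Jn (v : ℕ) : Prop := ∃ hv : {v} ∈ K, Joined (vtx K 0 h0) (vtx K v hv)

theorem Jn.mem {K : Finset (Finset ℕ)} {h0 : {0} ∈ K} {v : ℕ} (h : Jn K h0 v) : {v} ∈ K :=
  h.choose

theorem Jn.zero : Jn K h0 0 := ⟨h0, Joined.refl _⟩

theorem Jn.step {K : Finset (Finset ℕ)} {h0 : {0} ∈ K} {u v : ℕ} (h : Jn K h0 u)
    (hv : {v} ∈ K) (huv : ({u, v} : Finset ℕ) ∈ K) : Jn K h0 v :=
  ⟨hv, h.choose_spec.trans ⟨seg K u v h.mem hv huv⟩⟩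

/-- the object of the fundamental groupoid -/
noncomputable abbrev ob (v : ℕ) (h : Jn K h0 v) : FundamentalGroupoid (Rz K) :=
  FundamentalGroupoid.mk (vtx K v h.mem)

/-- the chosen arrow from the base vertex -/
noncomputable def ar' (v : ℕ) (h : Jn K h0 v) :
    ob K h0 0 (Jn.zero K h0) ⟶ ob K h0 v h :=
  Path.Homotopic.Quotient.mk h.choose_spec.somePath

/-- the chosen arrow from the base vertex, normalized -/
noncomputable def ar (v : ℕ) (h : Jn K h0 v) :
    ob K h0 0 (Jn.zero K h0) ⟶ ob K h0 v h :=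
  inv (ar' K h0 0 (Jn.zero K h0)) ≫ ar' K h0 v h

theorem ar_zero : ar K h0 0 (Jn.zero K h0) = 𝟙 _ := by
  simp [ar]

/-- the arrow of an edge -/
noncomputable def ed (u v : ℕ) (hu : Jn K h0 u) (hv : Jn K h0 v)
    (h : ({u, v} : Finset ℕ) ∈ K) : ob K h0 u hu ⟶ ob K h0 v hv :=
  Path.Homotopic.Quotient.mk (seg K u v hu.mem hv.mem h)

theorem ed_comp {u v w : ℕ} (hu : Jn K h0 u) (hv : Jn K h0 v) (hw : Jn K h0 w)
    (huv : ({u, v} : Finset ℕ) ∈ K) (hvw : ({v, w} : Finset ℕ) ∈ K)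
    (huw : ({u, w} : Finset ℕ) ∈ K) (h : ({u, v, w} : Finset ℕ) ∈ K) :
    ed K h0 u v hu hv huv ≫ ed K h0 v w hv hw hvw = ed K h0 u w hu hw huw :=
  Path.Homotopic.Quotient.eq.mpr (seg_trans hu.mem hv.mem hw.mem huv hvw huw h)

/-- the element of an endomorphism of the base vertex -/
noncomputable def cl (f : FundamentalGroupoid.mk (vtx K 0 h0) ⟶ FundamentalGroupoid.mk (vtx K 0 h0)) :
    Pi1 (Rz K) (vtx K 0 h0) := MulOpposite.op (FundamentalGroup.fromArrow f)

theorem cl_mul (f g : FundamentalGroupoid.mk (vtx K 0 h0) ⟶ FundamentalGroupoid.mk (vtx K 0 h0)) :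
    cl K h0 f * cl K h0 g = cl K h0 (f ≫ g) := rfl

/-- the loop of an edge -/
noncomputable def lo (u v : ℕ) (hu : Jn K h0 u) (hv : Jn K h0 v)
    (h : ({u, v} : Finset ℕ) ∈ K) : Pi1 (Rz K) (vtx K 0 h0) :=
  cl K h0 (ar K h0 u hu ≫ ed K h0 u v hu hv h ≫ inv (ar K h0 v hv))

open Classical in
/-- the cocycle -/
noncomputable def coc (u v : ℕ) : Pi1 (Rz K) (vtx K 0 h0) :=
  if h : Jn K h0 u ∧ Jn K h0 v ∧ ({u, v} : Finset ℕ) ∈ K then lo K h0 u v h.1 h.2.1 h.2.2 else 1

theorem coc_eq {u v : ℕ} (hu : Jn K h0 u) (hv : Jn K h0 v) (h : ({u, v} : Finset ℕ) ∈ K) :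
    coc K h0 u v = lo K h0 u v hu hv h := by
  rw [coc, dif_pos ⟨hu, hv, h⟩]

theorem lo_mul {u v w : ℕ} (hu : Jn K h0 u) (hv : Jn K h0 v) (hw : Jn K h0 w)
    (huv : ({u, v} : Finset ℕ) ∈ K) (hvw : ({v, w} : Finset ℕ) ∈ K) :
    lo K h0 u v hu hv huv * lo K h0 v w hv hw hvw =
      cl K h0 (ar K h0 u hu ≫ (ed K h0 u v hu hv huv ≫ ed K h0 v w hv hw hvw) ≫
        inv (ar K h0 w hw)) := by
  rw [lo, lo, cl_mul]
  simp

end

/-- P5 -/
theorem topCocycle : TopCocycleStatement := by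
  intro K h0 hK
  refine ⟨coc K h0, ?_, ?_⟩
  · intro u v w h
    have huv : ({u, v} : Finset ℕ) ∈ K :=
      (hK _ h).2 _ (by intro i; simp; tauto) (by simp)
    have hvw : ({v, w} : Finset ℕ) ∈ K :=
      (hK _ h).2 _ (by intro i; simp; tauto) (by simp)
    have huw : ({u, w} : Finset ℕ) ∈ K :=
      (hK _ h).2 _ (by intro i; simp; tauto) (by simp)
    have hu1 : ({u} : Finset ℕ) ∈ K := (hK _ h).2 _ (by intro i; simp; tauto) (by simp)
    have hv1 : ({v} : Finset ℕ) ∈ K := (hK _ h).2 _ (by intro i; simp; tauto) (by simp)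
    have hw1 : ({w} : Finset ℕ) ∈ K := (hK _ h).2 _ (by intro i; simp; tauto) (by simp)
    by_cases hu : Jn K h0 u
    · have hv := hu.step hv1 huv
      have hw := hu.step hw1 huw
      rw [coc_eq K h0 hu hv huv, coc_eq K h0 hv hw hvw, coc_eq K h0 hu hw huw, lo_mul,
        ed_comp K h0 hu hv hw huv hvw huw h, lo]
    · have hv : ¬ Jn K h0 v := fun hv => hu (hv.step hu1 (by rwa [Finset.pair_comm]))
      rw [coc, coc, coc, dif_neg (by tauto), dif_neg (by tauto), dif_neg (by tauto), one_mul]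
  · intro b c hb hc h0b hbc hc0
    have hJ0 := Jn.zero K h0
    have hJb := hJ0.step hb h0b
    have hJc := hJb.step hc hbc
    rw [coc_eq K h0 hJ0 hJb h0b, coc_eq K h0 hJb hJc hbc, coc_eq K h0 hJc hJ0 hc0, lo_mul, lo,
      cl_mul]
    simp only [ar_zero, Category.id_comp, Category.assoc, IsIso.inv_id, Category.comp_id,
      IsIso.inv_hom_id_assoc]
    rw [← Category.assoc]
    rfl

end Pool.Agent.Lib.MP_50ef00_gt.H63
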